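import Pool.Agent.Q34.QWf

/-!
The `q`-congruence modulo `Φ_p(q)^5` of the problem: it holds only for `p = 5` and `p = 7`, and the
correct coefficient is `(p - 1) (p - 2)^2 (2 p - 3) (p^2 - 1) / 72`.
-/

set_option autoImplicit false

namespace Pool.Agent.Results.MP_328b17_nt.Full

open Finset Polynomial

/-- the indeterminate -/
noncomputable abbrev q : RatFunc ℚ := RatFunc.X

/-- the `q`-integer `[m] = (1 - q^m) / (1 - q)` -/
noncomputable def br (m : ℤ) : RatFunc ℚ := (1 - q ^ m) / (1 - q)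

/-- the shifted factorial `(a; Q)_k` -/
noncomputable def qs (a Q : RatFunc ℚ) (k : ℕ) : RatFunc ℚ := ∏ i ∈ range k, (1 - a * Q ^ i)

/-- the sum of the problem -/
noncomputable def S (p : ℕ) : RatFunc ℚ :=
  ∑ j ∈ range p, br (2 * ((p : ℤ) - 1) * j - 1) *
    (qs q⁻¹ (q ^ (p - 1)) j / qs (q ^ (p - 1)) (q ^ (p - 1)) j) ^ (2 * (p - 1)) * q ^ (j * (p - 1) ^ 2)

/-- a polynomial as a rational function -/
noncomputable abbrev em (A : ℚ[X]) : RatFunc ℚ := algebraMap ℚ[X] (RatFunc ℚ) A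

/-- `x ≡ y (mod P)`: `x = A / B`, `y = C / D`, `B` and `D` are coprime to `P` and `P ∣ A D - B C` -/
def Cong (P : ℚ[X]) (x y : RatFunc ℚ) : Prop :=
  ∃ A B C D : ℚ[X], x = em A / em B ∧ y = em C / em D ∧ IsCoprime B P ∧ IsCoprime D P ∧ P ∣ A * D - B * C

/-- the right hand side of the problem -/
noncomputable def posed (p : ℕ) : ℚ[X] :=
  C (1 / 6 * ((p : ℚ) - 1) * (p - 3) * (2 * p - 3) * (p - 2) ^ 2) * (1 - X) ^ 2 * cyclotomic p ℚ ^ 4

/-- the correct right hand side -/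
noncomputable def true' (p : ℕ) : ℚ[X] :=
  C (1 / 72 * ((p : ℚ) - 1) * (p - 2) ^ 2 * (2 * p - 3) * (p ^ 2 - 1)) * (1 - X) ^ 2 * cyclotomic p ℚ ^ 4

open Pool.Agent.Q34.QW (QC Rf Un I cyc_prime cyc_dvd_pow cyc_not_X cyc_not_pow un_em loc_em X_pow_ne mem_em
  cg_of_I Cg Cg.sub cg_poly W ka_eq)

theorem cong_of_cg {P : ℚ[X]} (hu : ¬ IsUnit P) {x : RatFunc ℚ} {C : ℚ[X]} (h : Cg P (x - em C)) : Cong P x (em C) := by
  obtain ⟨A, B, hB, hA, e⟩ := h
  have h0 : em B ≠ 0 := Pool.Agent.Q34.QW.em_ne fun h => hu (by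
    rw [h] at hB
    exact isCoprime_zero_left.1 hB)
  refine ⟨A + B * C, B, C, 1, ?_, by simp [em], hB, isCoprime_one_left, ?_⟩
  · rw [sub_eq_iff_eq_add] at e
    rw [e]
    change em A / em B + em C = _
    rw [eq_div_iff h0]
    simp only [em, map_add, map_mul] at *
    field_simp
  · rw [mul_one, add_sub_cancel_right]
    exact hA

theorem cg_of_cong {P : ℚ[X]} (hu : ¬ IsUnit P) {x y : RatFunc ℚ} (h : Cong P x y) : Cg P (x - y) := by
  obtain ⟨A, B, C, D, rfl, rfl, hB, hD, h⟩ := h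
  have h0 : ∀ B : ℚ[X], IsCoprime B P → em B ≠ 0 := fun B hB => Pool.Agent.Q34.QW.em_ne fun h => hu (by
    rw [h] at hB
    exact isCoprime_zero_left.1 hB)
  refine ⟨A * D - B * C, B * D, hB.mul_left hD, h, ?_⟩
  change em A / em B - em C / em D = _
  rw [div_sub_div _ _ (h0 B hB) (h0 D hD)]
  simp only [em, map_mul, map_sub]

theorem em_X : em X = q := RatFunc.algebraMap_X

theorem em_pow (N : ℕ) : em (1 - X ^ N) = 1 - q ^ N := by
  simp only [em, map_sub, map_one, map_pow, RatFunc.algebraMap_X]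

theorem qc {k : ℕ} (hp : (k + 2).Prime) (hk : 1 ≤ k) :
    QC (Rf (cyclotomic (k + 2) ℚ) (cyc_prime (by omega))) (em (1 - X ^ (k + 2))) q⁻¹ (q ^ (k + 1)) (k + 1) k where
  L := loc_em _ (cyc_dvd_pow (by omega) dvd_rfl)
  hn := by omega
  ha := by
    have := (un_em (cyc_prime (show 0 < k + 2 by omega)) (cyc_not_X (by omega))).inv
    rwa [show Pool.Agent.Q34.QW.em X = q from em_X] at this
  hQ := by
    rw [em_pow, sub_sub_cancel, show k + 2 = (k + 1) + 1 by ring, pow_succ' q (k + 1), ← mul_assoc,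
      inv_mul_cancel₀ RatFunc.X_ne_zero, one_mul]
  hQn := by
    rw [em_pow, sub_sub_cancel, ← pow_mul, ← pow_mul]
    congr 1
    ring
  hU := by
    intro j hj
    rw [← pow_mul, ← em_pow]
    refine un_em _ (cyc_not_pow (by omega) fun h => ?_)
    rcases (Nat.Prime.dvd_mul hp).1 h with h | h
    · exact absurd (Nat.le_of_dvd (by omega) h) (by omega)
    · exact absurd (Nat.le_of_dvd (by omega) h) (by omega)
  ne :=
    { hQ := pow_ne_zero _ RatFunc.X_ne_zero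
      hF := by
        intro i h
        have h1 : q ^ 1 = q ^ ((k + 1) * i) := by
          have h2 : (1 : RatFunc ℚ) = q⁻¹ * (q ^ (k + 1)) ^ i := sub_eq_zero.1 h
          rw [pow_mul, pow_one]
          calc q = q * 1 := (mul_one _).symm
            _ = q * (q⁻¹ * (q ^ (k + 1)) ^ i) := by rw [← h2]
            _ = _ := by rw [← mul_assoc, mul_inv_cancel₀ RatFunc.X_ne_zero, one_mul]
        refine X_pow_ne (a := 1) (b := (k + 1) * i) ?_ h1
        intro h2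
        have := Nat.eq_one_of_mul_eq_one_right h2.symm
        omega
      hG := by
        intro i h
        rw [← pow_mul] at h
        refine X_pow_ne (a := 0) (b := (k + 1) * (i + 1)) ?_ (by rw [pow_zero]; exact sub_eq_zero.1 h)
        exact (Nat.mul_pos (by omega) (by omega)).ne }

theorem qs_ratio (a Q : RatFunc ℚ) (k : ℕ) : qs a Q k / qs Q Q k = ∏ j ∈ range k, ((1 - a * Q ^ j) / (1 - Q ^ (j + 1))) := by
  unfold qs
  rw [← prod_div_distrib]
  exact prod_congr rfl fun j _ => by rw [pow_succ' Q j]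

theorem S_eq (k : ℕ) : S (k + 2) =
    (∑ j ∈ range (k + 2), (1 - q⁻¹ * (q ^ (k + 1)) ^ (2 * j)) * W q⁻¹ (q ^ (k + 1)) (k + 1) k j) / (1 - q) := by
  unfold S W br
  rw [sum_div]
  refine sum_congr rfl fun j _ => ?_
  rw [show k + 2 - 1 = k + 1 by omega, qs_ratio]
  have e1 : q ^ (2 * (((k + 2 : ℕ) : ℤ) - 1) * (j : ℤ) - 1) = q⁻¹ * (q ^ (k + 1)) ^ (2 * j) := by
    rw [zpow_sub₀ RatFunc.X_ne_zero, zpow_one, ← pow_mul, ← zpow_natCast q, div_eq_inv_mul]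
    congr 2
    push_cast
    ring
  have e2 : q ^ (j * (k + 1) ^ 2) = ((q ^ (k + 1)) ^ (k + 1)) ^ j := by
    rw [← pow_mul, ← pow_mul]
    congr 1
    ring
  rw [e1, e2]
  ring

theorem main {k : ℕ} (hp : (k + 2).Prime) (hk : 1 ≤ k) :
    Cg (cyclotomic (k + 2) ℚ ^ 5) (S (k + 2) - em (true' (k + 2))) := by
  have CC := qc hp hk
  have hpos : 0 < k + 2 := by omega
  have hF := CC.final
  have hH := CC.HS_I
  have uq : Un (Rf (cyclotomic (k + 2) ℚ) (cyc_prime hpos)) (1 - q) := by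
    have := un_em (cyc_prime hpos) (cyc_not_pow hpos (N := 1) (by
      intro h
      have := Nat.le_of_dvd one_pos h
      omega))
    rwa [show Pool.Agent.Q34.QW.em (1 - X ^ 1) = 1 - q ^ 1 from em_pow 1, pow_one] at this
  have uQ := CC.Qn_unit
  set R := Rf (cyclotomic (k + 2) ℚ) (cyc_prime hpos) with hR
  set h := em (1 - X ^ (k + 2)) with hh
  set Q := q ^ (k + 1) with hQ
  set P : RatFunc ℚ := ((k + 1 + 1 : ℕ) : RatFunc ℚ) with hP
  have kaR : QC.ka (RatFunc ℚ) k ∈ R := CC.ka_mem k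
  have u12 : Un R (12 : RatFunc ℚ) := by
    have := CC.L.rat 12 (by norm_num)
    exact ⟨by norm_num, by exact_mod_cast QC.natCast_mem' 12, by exact_mod_cast this.2⟩
  have eR : (P ^ 2 - 1) / 12 ∈ R := Pool.Agent.Q34.QW.div_mem
    (R.sub_mem (R.pow_mem (QC.natCast_mem' _) 2) R.one_mem) u12
  have i1 : I R h 1 (q - Q ^ (k + 1)) := by
    have e : q - Q ^ (k + 1) = h ^ 1 * (q * ∑ i ∈ range k, (q ^ (k + 2)) ^ i) := by
      have g := mul_neg_geom_sum (q ^ (k + 2)) k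
      rw [hh, em_pow, pow_one, hQ]
      have e2 : (q ^ (k + 1)) ^ (k + 1) = q * (q ^ (k + 2)) ^ k := by
        rw [← pow_mul, ← pow_mul, ← pow_succ']
        congr 1
        ring
      rw [e2]
      linear_combination (-q) * g
    rw [e]
    refine ⟨_, R.mul_mem ?_ (R.sum_mem fun i _ => R.pow_mem (R.pow_mem ?_ _) _), rfl⟩
    · rw [← em_X]; exact mem_em _ _
    · rw [← em_X]; exact mem_em _ _
  have b1 : I R h 1 (QC.HS Q (k + 1) / (1 - Q ^ (k + 1)) + (P ^ 2 - 1) / 12 / (1 - q)) := by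
    have e : QC.HS Q (k + 1) / (1 - Q ^ (k + 1)) + (P ^ 2 - 1) / 12 / (1 - q) =
        (QC.HS Q (k + 1) + (P ^ 2 - 1) / 12) / (1 - Q ^ (k + 1)) +
          (P ^ 2 - 1) / 12 * ((q - Q ^ (k + 1)) / ((1 - q) * (1 - Q ^ (k + 1)))) := by
      have v1 := uq.1
      have v2 := uQ.1
      field_simp
      ring
    rw [e]
    exact (hH.div uQ).add (I.mem_mul eR (i1.div (uq.mul uQ)))
  have i4 : I R h 4 (h ^ 4) := ⟨1, R.one_mem, by ring⟩
  have b2 : I R h 5 (∑ j ∈ range (k + 1 + 1), (1 - q⁻¹ * Q ^ (2 * j)) * W q⁻¹ Q (k + 1) k j -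
      h ^ 4 * (QC.ka (RatFunc ℚ) k * (k : RatFunc ℚ) * ((P ^ 2 - 1) / 12) / (1 - q))) := by
    have b3 := hF.sub (i4.mul (m := 1) (I.mem_mul (R.mul_mem kaR (QC.natCast_mem' k)) b1))
    have e : ∑ j ∈ range (k + 1 + 1), (1 - q⁻¹ * Q ^ (2 * j)) * W q⁻¹ Q (k + 1) k j -
      h ^ 4 * (QC.ka (RatFunc ℚ) k * (k : RatFunc ℚ) * ((P ^ 2 - 1) / 12) / (1 - q)) =
      (∑ j ∈ range (k + 1 + 1), (1 - q⁻¹ * Q ^ (2 * j)) * W q⁻¹ Q (k + 1) k j +
        h ^ 4 * (QC.ka (RatFunc ℚ) k * (k : RatFunc ℚ) * QC.HS Q (k + 1) / (1 - Q ^ (k + 1)))) -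
      h ^ 4 * (QC.ka (RatFunc ℚ) k * (k : RatFunc ℚ) * (QC.HS Q (k + 1) / (1 - Q ^ (k + 1)) + (P ^ 2 - 1) / 12 / (1 - q))) := by
      ring
    rw [e]
    exact b3
  have b4 := b2.div uq
  have hcyc : (1 - X ^ (k + 2) : ℚ[X]) = (1 - X) * cyclotomic (k + 2) ℚ := by
    have : Fact (k + 2).Prime := ⟨hp⟩
    rw [cyclotomic_prime, mul_neg_geom_sum]
  have e5 : (∑ j ∈ range (k + 1 + 1), (1 - q⁻¹ * Q ^ (2 * j)) * W q⁻¹ Q (k + 1) k j -
      h ^ 4 * (QC.ka (RatFunc ℚ) k * (k : RatFunc ℚ) * ((P ^ 2 - 1) / 12) / (1 - q))) / (1 - q) =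
      S (k + 2) - em (true' (k + 2)) := by
    rw [S_eq, sub_div]
    congr 1
    rw [hh, hcyc]
    unfold true'
    have hka := ka_eq (K := RatFunc ℚ) k
    have e6 : QC.ka (RatFunc ℚ) k = (k : RatFunc ℚ) * ((k : RatFunc ℚ) + 1) * (2 * (k : RatFunc ℚ) + 1) / 6 := by
      rw [eq_div_iff (by norm_num), ← hka]
      ring
    rw [e6, hP]
    have v1 := uq.1
    have e7 : em (C (1 / 72 * (((k + 2 : ℕ) : ℚ) - 1) * (((k + 2 : ℕ) : ℚ) - 2) ^ 2 * (2 * ((k + 2 : ℕ) : ℚ) - 3) *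
        (((k + 2 : ℕ) : ℚ) ^ 2 - 1))) = 1 / 72 * ((k : RatFunc ℚ) + 1) * (k : RatFunc ℚ) ^ 2 *
          (2 * (k : RatFunc ℚ) + 1) * (((k : RatFunc ℚ) + 2) ^ 2 - 1) := by
      have : ∀ c : ℚ, em (C c) = algebraMap ℚ (RatFunc ℚ) c := fun c => by
        rw [IsScalarTower.algebraMap_apply ℚ ℚ[X] (RatFunc ℚ) c]
        rfl
      rw [this]
      push_cast
      simp only [map_mul, map_sub, map_add, map_pow, map_div₀, map_one, map_natCast, map_ofNat]
      ring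
    simp only [em, map_mul, map_pow, map_sub, map_one, RatFunc.algebraMap_X] at *
    rw [e7]
    push_cast
    field_simp
    ring
  rw [← e5]
  exact cg_of_I _ (c := 1 - X) hcyc b4

theorem hu {p : ℕ} (hp : 0 < p) : ¬ IsUnit (cyclotomic p ℚ ^ 5) := fun h =>
  (cyc_prime hp).not_isUnit ((isUnit_pow_iff (by norm_num)).1 h)

theorem iff' {p : ℕ} (hp : p.Prime) (h3 : 3 < p) :
    Cong (cyclotomic p ℚ ^ 5) (S p) (em (posed p)) ↔ p = 5 ∨ p = 7 := by
  obtain ⟨k, rfl⟩ : ∃ k, p = k + 2 := ⟨p - 2, by omega⟩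
  have hm := main hp (by omega)
  have hpos : 0 < k + 2 := by omega
  have hdiff : true' (k + 2) - posed (k + 2) = C (1 / 72 * (((k + 2 : ℕ) : ℚ) - 1) * (((k + 2 : ℕ) : ℚ) - 2) ^ 2 *
      (2 * ((k + 2 : ℕ) : ℚ) - 3) * (((k + 2 : ℕ) : ℚ) - 5) * (((k + 2 : ℕ) : ℚ) - 7)) * (1 - X) ^ 2 *
        cyclotomic (k + 2) ℚ ^ 4 := by
    unfold true' posed
    rw [← sub_mul, ← sub_mul, ← C_sub]
    congr 3
    ring
  constructor
  · intro h
    have h1 := (cg_of_cong (hu hpos) h).sub (pow_ne_zero _ (cyc_prime hpos).ne_zero) (hu hpos) hm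
    have e : S (k + 2) - em (posed (k + 2)) - (S (k + 2) - em (true' (k + 2))) = em (true' (k + 2) - posed (k + 2)) := by
      simp only [em, map_sub]
      ring
    rw [e] at h1
    have h2 := cg_poly (hu hpos) h1
    rw [hdiff, pow_succ', mul_dvd_mul_iff_right (pow_ne_zero _ (cyc_prime hpos).ne_zero)] at h2
    have nX : ¬ cyclotomic (k + 2) ℚ ∣ (1 - X) ^ 2 := by
      intro h
      have := (cyc_prime hpos).dvd_of_dvd_pow h
      refine cyc_not_pow hpos (N := 1) ?_ (by rwa [pow_one])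
      intro h
      have := Nat.le_of_dvd one_pos h
      omega
    have h4 := ((cyc_prime hpos).dvd_or_dvd h2).resolve_right nX
    by_contra hc
    rw [not_or] at hc
    have h5 : (1 / 72 * (((k + 2 : ℕ) : ℚ) - 1) * (((k + 2 : ℕ) : ℚ) - 2) ^ 2 *
      (2 * ((k + 2 : ℕ) : ℚ) - 3) * (((k + 2 : ℕ) : ℚ) - 5) * (((k + 2 : ℕ) : ℚ) - 7)) ≠ 0 := by
      have c1 : ((k + 2 : ℕ) : ℚ) ≠ 5 := by exact_mod_cast hc.1
      have c2 : ((k + 2 : ℕ) : ℚ) ≠ 7 := by exact_mod_cast hc.2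
      have c3 : (3 : ℚ) < ((k + 2 : ℕ) : ℚ) := by exact_mod_cast h3
      have d1 : ((k + 2 : ℕ) : ℚ) - 1 ≠ 0 := by linarith
      have d2 : ((k + 2 : ℕ) : ℚ) - 2 ≠ 0 := by linarith
      have d3 : 2 * ((k + 2 : ℕ) : ℚ) - 3 ≠ 0 := by linarith
      exact mul_ne_zero (mul_ne_zero (mul_ne_zero (mul_ne_zero (mul_ne_zero (by norm_num) d1) (pow_ne_zero _ d2)) d3)
        (sub_ne_zero.2 c1)) (sub_ne_zero.2 c2)
    exact (cyc_prime hpos).not_isUnit (isUnit_of_dvd_unit h4 (isUnit_C.2 (IsUnit.mk0 _ h5)))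
  · intro h
    have e : true' (k + 2) = posed (k + 2) := by
      rw [← sub_eq_zero, hdiff]
      rcases h with h | h
      · rw [h]; norm_num
      · rw [h]; norm_num
    rw [← e]
    exact cong_of_cg (hu hpos) hm

theorem result :
    (¬ ∀ p : ℕ, p.Prime → 3 < p → Cong (cyclotomic p ℚ ^ 5) (S p) (em (posed p))) ∧
    (∀ p : ℕ, p.Prime → 3 < p → (Cong (cyclotomic p ℚ ^ 5) (S p) (em (posed p)) ↔ p = 5 ∨ p = 7)) ∧
    ∀ p : ℕ, p.Prime → 2 < p → Cong (cyclotomic p ℚ ^ 5) (S p) (em (true' p)) := by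
  refine ⟨fun h => ?_, fun p hp h3 => iff' hp h3, fun p hp h2 => ?_⟩
  · have := (iff' (p := 11) (by norm_num) (by norm_num)).1 (h 11 (by norm_num) (by norm_num))
    omega
  · obtain ⟨k, rfl⟩ : ∃ k, p = k + 2 := ⟨p - 2, by omega⟩
    exact cong_of_cg (hu (by omega)) (main hp (by omega))

end Pool.Agent.Results.MP_328b17_nt.Full
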